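import Pool.Agent.Lib.MP_bf093f_an.Positive

set_option autoImplicit false

namespace Pool.Agent.Results.MP_bf093f_an.NonvanishingLimit

open MeasureTheory Filter Topology
open Pool.Agent.Lib.MP_bf093f_an

/-- **Q1 has a positive answer.**  For every sequence `ε n → 0` and all positive least energy
solutions `u n` of `(P_{ε n})` there are `k n ∈ ℤᴺ` and a subsequence along which the rescaled
functions converge weakly in `D^{1,2}(ℝᴺ)` to a function which is positive almost everywhere. -/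
theorem result (N : ℕ) (hN : 3 ≤ N) (p : ℝ) (hp : 2 < p) (hp' : p < twoStar N) (ε : ℕ → ℝ)
    (hε : ∀ n, 0 < ε n ∧ ε n < 1 / 2) (hlim : Tendsto ε atTop (𝓝 0)) (u : ℕ → Sp N → ℝ)
    (hu : ∀ n, IsLeastEnergySol 1 (coreSign (ε n)) p (u n)) (hpos : ∀ n, ∀ᵐ x, 0 < u n x) :
    ∃ (k : ℕ → Fin N → ℤ) (σ : ℕ → ℕ) (v : Sp N → ℝ), StrictMono σ ∧
      WeakConv (fun n => rescale p (ε (σ n)) (k (σ n)) (u (σ n))) v ∧ ∀ᵐ x, 0 < v x := by
  have : Fact (3 ≤ N) := ⟨hN⟩
  exact nonvanishing_pos hp hp' (fun n => (hε n).1) (fun n => by linarith [(hε n).2]) hlim hu hpos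

end Pool.Agent.Results.MP_bf093f_an.NonvanishingLimit
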