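import Pool.Agent.Lib.MP_bf093f_an.Unique

set_option autoImplicit false

namespace Pool.Agent.Results.MP_bf093f_an.StrongLimit

open MeasureTheory Filter Topology
open Pool.Agent.Lib.MP_bf093f_an

/-- **Q2 has a positive answer.**  Whenever lattice points `k n` and a subsequence `σ` give a weak
limit `v` of the rescaled least energy solutions which does not vanish identically, the
convergence along that subsequence is strong in `D^{1,2}(ℝᴺ) ∩ L^p(ℝᴺ)`. -/
theorem result (N : ℕ) (hN : 3 ≤ N) (p : ℝ) (hp : 2 < p) (hp' : p < twoStar N) (ε : ℕ → ℝ)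
    (hε : ∀ n, 0 < ε n ∧ ε n < 1 / 2) (hlim : Tendsto ε atTop (𝓝 0)) (u : ℕ → Sp N → ℝ)
    (hu : ∀ n, IsLeastEnergySol 1 (coreSign (ε n)) p (u n)) (k : ℕ → Fin N → ℤ)
    (σ : ℕ → ℕ) (hσ : StrictMono σ) (v : Sp N → ℝ)
    (hw : WeakConv (fun n => rescale p (ε (σ n)) (k (σ n)) (u (σ n))) v)
    (hv : ¬ v =ᵐ[volume] 0) :
    StrongConv p (fun n => rescale p (ε (σ n)) (k (σ n)) (u (σ n))) v := by
  have : Fact (3 ≤ N) := ⟨hN⟩
  exact strong_convergence hp hp' (ε := fun n => ε (σ n)) (u := fun n => u (σ n))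
    (fun n => (hε _).1) (fun n => by linarith [(hε (σ n)).2])
    (hlim.comp hσ.tendsto_atTop) (fun n => hu _) (fun n => k (σ n)) hw hv

end Pool.Agent.Results.MP_bf093f_an.StrongLimit
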